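import Pool.Agent.H33.Cubic.Farey

/-!
# Decomposition of the box sum (module Dec of the cubic moment of Hardy's function)
-/

set_option autoImplicit false

open Finset

namespace Pool.Agent.H33.Cubic

open Pool.Agent.H98.Cubic

lemma ordConnected_lin (α β : ℝ) : {k : ℕ | 0 ≤ α * k + β}.OrdConnected := by
  refine ⟨?_⟩
  rintro a (ha : 0 ≤ α * a + β) c (hc : 0 ≤ α * c + β) b ⟨hab, hbc⟩
  show 0 ≤ α * b + β
  have h1 : (a : ℝ) ≤ b := by exact_mod_cast hab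
  have h2 : (b : ℝ) ≤ c := by exact_mod_cast hbc
  rcases le_total 0 α with h | h
  · nlinarith
  · nlinarith

lemma ordConnected_OO (Q c₂ c₃ : ℝ) (p q : ℕ) (g : ℤ) (hQ : 4 ≤ Q) (hq : 1 ≤ q)
    (hqQ : (q : ℝ) ≤ Q) (hpq : Nat.Coprime p q) (hg : g ≠ 0) :
    (OO Q c₂ c₃ p q g).OrdConnected := by
  have hq0 : (0 : ℝ) < q := by exact_mod_cast hq
  have e : OO Q c₂ c₃ p q g = {k : ℕ | 1 ≤ k ∧ IsDen Q (((p : ℝ) * k + g) / (q * k)) q ∧
        |(g : ℝ)| * Q ≤ k} ∩ ({k : ℕ | 0 ≤ ((p : ℝ) - q) * k + g} ∩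
          ({k : ℕ | 0 ≤ (-(p : ℝ)) * k + (c₂ * q - g)} ∩ {k : ℕ | 0 ≤ (-1 : ℝ) * k + c₃})) := by
    ext k
    simp only [OO, Set.mem_ofPred_eq, Set.mem_inter_iff]
    have h1 : (k : ℝ) ≤ ((p : ℝ) * k + g) / q ↔ 0 ≤ ((p : ℝ) - q) * k + g := by
      rw [le_div_iff₀ hq0]
      constructor <;> intro h <;> linarith
    have h2 : ((p : ℝ) * k + g) / q ≤ c₂ ↔ 0 ≤ (-(p : ℝ)) * k + (c₂ * q - g) := by
      rw [div_le_iff₀ hq0]
      constructor <;> intro h <;> linarith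
    have h3 : (k : ℝ) ≤ c₃ ↔ 0 ≤ (-1 : ℝ) * k + c₃ := by
      constructor <;> intro h <;> linarith
    rw [h1, h2, h3]
  rw [e]
  exact (fareyC Q p q g hQ hq hqQ hpq hg).inter ((ordConnected_lin _ _).inter
    ((ordConnected_lin _ _).inter (ordConnected_lin _ _)))

/-- the sum over `y` for fixed `k` and `u`. -/
noncomputable def Sk (N c₁ : ℝ) (Y k u : ℕ) : ℂ :=
  ∑ y ∈ (Ico Y (2 * Y)).filter (fun y : ℕ => k ≤ y ∧ N * k ≤ (y : ℝ) * u ∧
      (y : ℝ) * u ≤ Real.sqrt 2 * N * k ∧ (y : ℝ) ≤ c₁),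
    ee ((y : ℝ) ^ 2 * (u : ℝ) ^ 2 / (2 * (k : ℝ) ^ 2))

lemma Sy_eq (N c₁ : ℝ) (Y p q k u : ℕ) (g : ℤ) (hq : 1 ≤ q) (hk : 1 ≤ k) (hu : 1 ≤ u)
    (h : (p : ℤ) * k + g = q * u) :
    Sy (yLo N Y p q g k) (yHi N c₁ Y p q g k) (((p : ℝ) * k + g) / (q * k)) =
      Sk N c₁ Y k u := by
  have hq0 : (0 : ℝ) < q := by exact_mod_cast hq
  have hk0 : (0 : ℝ) < k := by exact_mod_cast hk
  have hu0 : (0 : ℝ) < u := by exact_mod_cast hu
  have hR : (p : ℝ) * k + g = q * u := by exact_mod_cast h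
  have e1 : ((p : ℝ) * k + g) / (q * k) = u / k := by
    rw [hR]; field_simp
  have e2 : N * ((q : ℝ) * k) / ((p : ℝ) * k + g) = N * k / u := by
    rw [hR]; field_simp
  have e3 : Real.sqrt 2 * N * ((q : ℝ) * k) / ((p : ℝ) * k + g) = Real.sqrt 2 * N * k / u := by
    rw [hR]; field_simp
  unfold Sy Sk yLo yHi
  rw [e1, e2, e3]
  symm
  refine Finset.sum_nbij' (fun y : ℕ => (y : ℤ)) (fun y : ℤ => y.toNat) ?_ ?_ ?_ ?_ ?_
  · intro y hy
    simp only [Finset.mem_filter, Finset.mem_Ico] at hy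
    obtain ⟨⟨h1, h2⟩, h3, h4, h5, h6⟩ := hy
    simp only [Finset.mem_Icc, Int.ceil_le, Int.le_floor, max_le_iff, le_min_iff, Int.cast_natCast]
    have h2' : (y : ℝ) + 1 ≤ 2 * Y := by exact_mod_cast h2
    refine ⟨⟨⟨by exact_mod_cast h1, by exact_mod_cast h3⟩, ?_⟩, ⟨⟨by linarith, h6⟩, ?_⟩⟩
    · rw [div_le_iff₀ hu0]; exact h4
    · rw [le_div_iff₀ hu0]; exact h5
  · intro y hy
    simp only [Finset.mem_Icc, Int.ceil_le, Int.le_floor, max_le_iff, le_min_iff] at hy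
    obtain ⟨⟨⟨h1, h2⟩, h3⟩, ⟨⟨h4, h5⟩, h6⟩⟩ := hy
    have hy0 : 0 ≤ y := by
      have : (0 : ℝ) ≤ y := le_trans (by positivity) h1
      exact_mod_cast this
    lift y to ℕ using hy0
    simp only [Int.cast_natCast] at h1 h2 h3 h4 h5 h6
    simp only [Int.toNat_natCast, Finset.mem_filter, Finset.mem_Ico]
    refine ⟨⟨by exact_mod_cast h1, ?_⟩, by exact_mod_cast h2, ?_, ?_, h5⟩
    · have : (y : ℝ) < 2 * Y := by linarith
      exact_mod_cast this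
    · rwa [div_le_iff₀ hu0] at h3
    · rwa [le_div_iff₀ hu0] at h6
  · intro y _
    simp
  · intro y hy
    simp only [Finset.mem_Icc, Int.ceil_le, Int.le_floor, max_le_iff, le_min_iff] at hy
    obtain ⟨⟨⟨h1, h2⟩, h3⟩, ⟨⟨h4, h5⟩, h6⟩⟩ := hy
    have hy0 : 0 ≤ y := by
      have : (0 : ℝ) ≤ y := le_trans (by positivity) h1
      exact_mod_cast this
    exact Int.toNat_of_nonneg hy0
  · intro y _
    congr 1
    simp only [Int.cast_natCast]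
    field_simp

lemma BS_eq (N c₁ c₂ c₃ : ℝ) (K₀ Y : ℕ) :
    BS N K₀ Y c₁ c₂ c₃ =
      ∑ x ∈ ((Ico K₀ (2 * K₀)) ×ˢ (Icc 1 ⌊Real.sqrt 2 * N⌋₊)).filter
          (fun x : ℕ × ℕ => x.1 ≤ x.2 ∧ (x.2 : ℝ) ≤ c₂ ∧ (x.1 : ℝ) ≤ c₃),
        Sk N c₁ Y x.1 x.2 := by
  classical
  unfold BS
  rw [Finset.sum_filter, Finset.sum_product, Finset.sum_filter, Finset.sum_product]
  refine Finset.sum_congr rfl fun k _ => ?_
  rw [Finset.sum_product, Finset.sum_comm]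
  refine Finset.sum_congr rfl fun u _ => ?_
  unfold Sk
  rw [Finset.sum_filter]
  split_ifs with h
  · obtain ⟨h1, h2, h3⟩ := h
    refine Finset.sum_congr rfl fun y _ => ?_
    simp only [h1, h2, h3, true_and, and_true]
    by_cases hc : k ≤ y ∧ N * k ≤ (y : ℝ) * u ∧ (y : ℝ) * u ≤ Real.sqrt 2 * N * k ∧ (y : ℝ) ≤ c₁
    · rw [if_pos, if_pos hc]
      exact ⟨⟨hc.1, hc.2.1, hc.2.2.1⟩, hc.2.2.2⟩
    · rw [if_neg, if_neg hc]
      rintro ⟨⟨a1, a2, a3⟩, a4⟩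
      exact hc ⟨a1, a2, a3, a4⟩
  · refine Finset.sum_eq_zero fun y _ => ?_
    rw [if_neg]
    rintro ⟨⟨a1, a2, a3, a4⟩, a5, a6, a7⟩
    exact h ⟨a2, a6, a7⟩

lemma isDen_unique {Q ξ : ℝ} {q q' : ℕ} (h : IsDen Q ξ q) (h' : IsDen Q ξ q') : q = q' := by
  rcases lt_trichotomy q q' with hlt | heq | hlt
  · exact absurd (h'.2.2 q h.1 hlt) (not_lt.2 h.2.1)
  · exact heq
  · exact absurd (h.2.2 q' h'.1 hlt) (not_lt.2 h'.2.1)

lemma Sk_ne_zero {N c₁ : ℝ} {Y k u : ℕ} (hk : 1 ≤ k) (h : Sk N c₁ Y k u ≠ 0) :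
    ∃ y : ℕ, Y ≤ y ∧ k ≤ y ∧ (y : ℝ) * u ≤ Real.sqrt 2 * N * k := by
  unfold Sk at h
  obtain ⟨y, hy, -⟩ := Finset.exists_ne_zero_of_sum_ne_zero h
  simp only [Finset.mem_filter, Finset.mem_Ico] at hy
  exact ⟨y, hy.1.1, hy.2.1, hy.2.2.2.1⟩

/-- facts about a tuple `(q, p, g, k)` occurring in the decomposition. -/
lemma facts {Q c₂ c₃ : ℝ} {p q k : ℕ} {g : ℤ} (hQ : 4 ≤ Q) (hq : 1 ≤ q)
    (hdvd : (q : ℤ) ∣ (p : ℤ) * k + g) (hO : k ∈ OO Q c₂ c₃ p q g) :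
    ∃ u : ℕ, (p : ℤ) * k + g = q * u ∧ (((p : ℤ) * k + g) / (q : ℤ)).toNat = u ∧ 1 ≤ k ∧ k ≤ u ∧
      (u : ℝ) ≤ c₂ ∧ (k : ℝ) ≤ c₃ ∧ IsDen Q ((u : ℝ) / k) q ∧ |(q : ℝ) * (u / k) - p| ≤ 1 / Q := by
  obtain ⟨⟨h1, h2, h3⟩, h4, h5, h6⟩ := hO
  have hq0 : (0 : ℝ) < q := by exact_mod_cast hq
  have hk0 : (0 : ℝ) < k := by exact_mod_cast h1
  have hQ0 : (0 : ℝ) < Q := by linarith
  obtain ⟨u, hu⟩ := hdvd
  have hR : (p : ℝ) * k + g = q * u := by exact_mod_cast hu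
  have e0 : ((p : ℝ) * k + g) / q = u := by rw [hR]; field_simp
  rw [e0] at h4 h5
  have hu0 : (0 : ℤ) ≤ u := by
    have : (0 : ℝ) ≤ u := by linarith
    exact_mod_cast this
  lift u to ℕ using hu0
  simp only [Int.cast_natCast] at h4 h5 hR
  have hqz : (q : ℤ) ≠ 0 := by positivity
  have e1 : ((p : ℝ) * k + g) / (q * k) = u / k := by
    rw [hR]; field_simp
  rw [e1] at h2
  refine ⟨u, hu, ?_, h1, by exact_mod_cast h4, h5, h6, h2, ?_⟩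
  · rw [hu, Int.mul_ediv_cancel_left _ hqz, Int.toNat_natCast]
  · have e2 : (q : ℝ) * (u / k) - p = g / k := by
      rw [← mul_div_assoc, ← hR]; field_simp; ring
    rw [e2, abs_div, abs_of_pos hk0, div_le_div_iff₀ hk0 hQ0]
    linarith

open scoped Classical in
theorem dec : TDec := by
  intro N Q c₁ c₂ c₃ K₀ Y G hN hQ hK hY hG
  refine ⟨fun p q g hq hqQ hpq hg => ordConnected_OO Q c₂ c₃ p q g hQ hq hqQ hpq hg, ?_⟩
  have hQ0 : (0 : ℝ) < Q := by linarith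
  have hY0 : (0 : ℝ) < Y := by exact_mod_cast hY
  have hs2 : Real.sqrt 2 < 1.4143 := by
    rw [Real.sqrt_lt' (by norm_num)]; norm_num
  have hs0 : 0 < Real.sqrt 2 := Real.sqrt_pos.2 (by norm_num)
  rw [BS_eq]
  symm
  rw [Finset.sum_sigma']
  rw [Finset.sum_sigma']
  rw [Finset.sum_sigma']
  refine Finset.sum_bij_ne_zero
    (fun a _ _ => (a.2, (((a.1.1.2 : ℤ) * a.2 + a.1.2) / (a.1.1.1 : ℤ)).toNat)) ?_ ?_ ?_ ?_
  · rintro ⟨⟨⟨q, p⟩, g⟩, k⟩ ha hne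
    simp only [Finset.mem_sigma, Finset.mem_Icc, Finset.mem_filter, Finset.mem_Ico] at ha hne ⊢
    obtain ⟨⟨⟨⟨hq, hqQ⟩, ⟨hp, hpq⟩⟩, hg⟩, hk, hdvd, hO⟩ := ha
    obtain ⟨u, hu, hu', hk1, hku, hu2, hk3, hden, hcl⟩ := facts hQ hq hdvd hO
    rw [hu']
    rw [Sy_eq N c₁ Y p q k u g hq hk1 (hk1.trans hku) hu] at hne
    obtain ⟨y, hy1, hy2, hy3⟩ := Sk_ne_zero hk1 hne
    simp only [Finset.mem_product, Finset.mem_Ico, Finset.mem_Icc]
    refine ⟨⟨hk, hk1.trans hku, ?_⟩, hku, hu2, hk3⟩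
    apply Nat.le_floor
    have hk0 : (0 : ℝ) < k := by exact_mod_cast hk1
    have hyk : (k : ℝ) ≤ y := by exact_mod_cast hy2
    have h1 : (u : ℝ) * k ≤ Real.sqrt 2 * N * k := by
      refine le_trans ?_ hy3
      rw [mul_comm]
      exact mul_le_mul_of_nonneg_right hyk (by positivity)
    exact le_of_mul_le_mul_right h1 hk0
  · rintro ⟨⟨⟨q, p⟩, g⟩, k⟩ ha - ⟨⟨⟨q', p'⟩, g'⟩, k'⟩ ha' - heq
    simp only [Finset.mem_sigma, Finset.mem_Icc, Finset.mem_filter, Finset.mem_Ico] at ha ha' heq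
    obtain ⟨⟨⟨⟨hq, hqQ⟩, ⟨hp, hpq⟩⟩, hg⟩, hk, hdvd, hO⟩ := ha
    obtain ⟨⟨⟨⟨hq', hqQ'⟩, ⟨hp', hpq'⟩⟩, hg'⟩, hk', hdvd', hO'⟩ := ha'
    obtain ⟨u, hu, hu', hk1, hku, hu2, hk3, hden, hcl⟩ := facts hQ hq hdvd hO
    obtain ⟨v, hv, hv', hk1', hku', hu2', hk3', hden', hcl'⟩ := facts hQ hq' hdvd' hO'
    rw [hu', hv', Prod.mk.injEq] at heq
    obtain ⟨rfl, rfl⟩ := heq
    have hqq : q = q' := isDen_unique hden hden'
    subst hqq
    have hpp : p = p' := by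
      have h1 : |(p : ℝ) - p'| < 1 := by
        have h2 : |(p : ℝ) - p'| ≤ |(q : ℝ) * (u / k) - p| + |(q : ℝ) * (u / k) - p'| := by
          have e : (p : ℝ) - p' = -((q : ℝ) * (u / k) - p) + ((q : ℝ) * (u / k) - p') := by ring
          rw [e]
          refine (abs_add_le _ _).trans ?_
          rw [abs_neg]
        have h3 : 1 / Q ≤ 1 / 4 := one_div_le_one_div_of_le (by norm_num) hQ
        linarith
      have h4 : |(p : ℤ) - p'| < 1 := by exact_mod_cast h1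
      rw [Int.abs_lt_one_iff] at h4
      omega
    subst hpp
    have hgg : g = g' := by
      have := hu.trans hv.symm
      linarith
    subst hgg
    rfl
  · rintro ⟨k, u⟩ hb hne
    simp only [Finset.mem_filter, Finset.mem_product, Finset.mem_Ico, Finset.mem_Icc] at hb
    obtain ⟨⟨hk, hu1, huN⟩, hku, hu2, hk3⟩ := hb
    have hk1 : 1 ≤ k := hK.trans hk.1
    have hk0 : (0 : ℝ) < k := by exact_mod_cast hk1
    have hu0 : (0 : ℝ) < u := by exact_mod_cast hu1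
    obtain ⟨y, hy1, hy2, hy3⟩ := Sk_ne_zero hk1 hne
    obtain ⟨q, hden, hqQ⟩ := fareyA Q ((u : ℝ) / k) (by linarith)
    have hq := hden.1
    have hq0 : (0 : ℝ) < q := by exact_mod_cast hq
    have hcop := fareyB Q _ q (by linarith) hden
    obtain ⟨p, hp⟩ : ∃ p : ℤ, p = round ((q : ℝ) * (u / k)) := ⟨_, rfl⟩
    have hcl : |(q : ℝ) * (u / k) - p| ≤ 1 / Q := by rw [hp]; exact hden.2.1
    have hQ4 : 1 / Q ≤ 1 / 4 := one_div_le_one_div_of_le (by norm_num) hQ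
    have hcl' := abs_le.1 hcl
    have hxi1 : (1 : ℝ) ≤ u / k := by
      rw [le_div_iff₀ hk0, one_mul]; exact_mod_cast hku
    have hqp : (q : ℤ) ≤ p := by
      have h1 : (q : ℝ) ≤ q * (u / k) := by nlinarith
      have h2 : (q : ℝ) - 1 < p := by linarith
      have h3 : (q : ℤ) - 1 < p := by exact_mod_cast h2
      omega
    have hp0 : 0 ≤ p := le_trans (by positivity) hqp
    lift p to ℕ using hp0
    simp only [Int.cast_natCast] at hcl hcl'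
    have hyY : (Y : ℝ) ≤ y := by exact_mod_cast hy1
    -- upper bound for p
    have hup : (p : ℝ) ≤ 3 * q * N / Y := by
      have hxi2 : (u : ℝ) / k ≤ Real.sqrt 2 * N / Y := by
        rw [div_le_div_iff₀ hk0 hY0]
        nlinarith
      have h5 : (q : ℝ) * (u / k) ≤ q * (Real.sqrt 2 * N / Y) := by gcongr
      have h6 : (1 : ℝ) ≤ q * (u / k) := by
        have : (1 : ℝ) ≤ q := by exact_mod_cast hq
        nlinarith
      set E := (q : ℝ) * N / Y with hE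
      have h7 : (q : ℝ) * (Real.sqrt 2 * N / Y) = Real.sqrt 2 * E := by rw [hE]; ring
      have h8 : 3 * (q : ℝ) * N / Y = 3 * E := by rw [hE]; ring
      rw [h7] at h5
      rw [h8]
      have hE0 : 0 < E := by positivity
      nlinarith
    set g : ℤ := (q : ℤ) * u - p * k with hg
    have hgu : (p : ℤ) * k + g = q * u := by rw [hg]; ring
    have hgR : (g : ℝ) = (q : ℝ) * u - p * k := by rw [hg]; push_cast; ring
    have hgk : |(g : ℝ)| * Q ≤ k := by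
      have e : (q : ℝ) * (u / k) - p = g / k := by
        rw [hgR]; field_simp
      rw [e, abs_div, abs_of_pos hk0, div_le_div_iff₀ hk0 hQ0] at hcl
      linarith
    have hgG : |(g : ℝ)| < G + 1 := by
      have hk2 : (k : ℝ) < 2 * K₀ := by exact_mod_cast hk.2
      have h9 : |(g : ℝ)| * Q < (G + 1) * Q := by linarith
      exact lt_of_mul_lt_mul_right h9 hQ0.le
    have hgG' : |g| ≤ (G : ℤ) := by
      have : |g| < (G : ℤ) + 1 := by exact_mod_cast hgG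
      omega
    have hR : (p : ℝ) * k + g = q * u := by exact_mod_cast hgu
    have e0 : ((p : ℝ) * k + g) / q = u := by rw [hR]; field_simp
    have e1 : ((p : ℝ) * k + g) / (q * k) = u / k := by rw [hR]; field_simp
    have hqz : (q : ℤ) ≠ 0 := by positivity
    have hdiv : (((p : ℤ) * k + g) / (q : ℤ)).toNat = u := by
      rw [hgu, Int.mul_ediv_cancel_left _ hqz, Int.toNat_natCast]
    refine ⟨⟨⟨⟨q, p⟩, g⟩, k⟩, ?_, ?_, ?_⟩
    · simp only [Finset.mem_sigma, Finset.mem_Icc, Finset.mem_filter, Finset.mem_Ico]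
      refine ⟨⟨⟨⟨hq, Nat.le_floor hqQ⟩, ⟨by exact_mod_cast hqp, Nat.le_floor hup⟩, ?_⟩,
        abs_le.1 hgG'⟩, hk, ⟨u, hgu⟩, ?_⟩
      · rw [← hp] at hcop
        simpa using hcop
      · refine ⟨⟨hk1, ?_, hgk⟩, ?_, ?_, hk3⟩
        · rw [e1]; exact hden
        · rw [e0]; exact_mod_cast hku
        · rw [e0]; exact hu2
    · show Sy _ _ _ ≠ 0
      rw [Sy_eq N c₁ Y p q k u g hq hk1 hu1 hgu]
      exact hne
    · simp only [hdiv]
  · rintro ⟨⟨⟨q, p⟩, g⟩, k⟩ ha hne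
    simp only [Finset.mem_sigma, Finset.mem_Icc, Finset.mem_filter, Finset.mem_Ico] at ha hne ⊢
    obtain ⟨⟨⟨⟨hq, hqQ⟩, ⟨hp, hpq⟩⟩, hg⟩, hk, hdvd, hO⟩ := ha
    obtain ⟨u, hu, hu', hk1, hku, hu2, hk3, hden, hcl⟩ := facts hQ hq hdvd hO
    rw [hu', Sy_eq N c₁ Y p q k u g hq hk1 (hk1.trans hku) hu]

end Pool.Agent.H33.Cubic
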