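import Pool.Agent.H98.Cubic.Targets
import Pool.Agent.H98.Cubic.Basic

/-!
# Expansion of the cubes (module Exp of the cubic moment of Hardy's function)
-/

set_option autoImplicit false

open Finset MeasureTheory

namespace Pool.Agent.H33.Cubic

open Pool.Agent.H98.Cubic

lemma integrable_cut {t₁ t₂ s : ℝ} (h : t₁ ≤ t₂) {F : ℝ → ℂ} (hF : ContinuousOn F (Set.Icc t₁ t₂)) :
    IntervalIntegrable (fun t => if s ≤ t then F t else 0) volume t₁ t₂ := by
  rw [intervalIntegrable_iff_integrableOn_Ioc_of_le h]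
  have h1 : IntegrableOn F (Set.Ioc t₁ t₂) :=
    (hF.integrableOn_Icc).mono_set Set.Ioc_subset_Icc_self
  have h2 := h1.indicator (measurableSet_Ici (a := s))
  refine h2.congr (Filter.Eventually.of_forall fun t => ?_)
  simp only [Set.indicator, Set.mem_Ici]

lemma integral_cut {t₁ t₂ s : ℝ} (h : t₁ ≤ t₂) (hs : s ≤ t₂) (F : ℝ → ℂ) :
    (∫ t in t₁..t₂, (if s ≤ t then F t else 0)) = ∫ t in (max t₁ s)..t₂, F t := by
  have e : (fun t => if s ≤ t then F t else 0) = (Set.Ici s).indicator F := by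
    funext t
    simp only [Set.indicator, Set.mem_Ici]
  rw [intervalIntegral.integral_of_le h, intervalIntegral.integral_of_le (max_le h hs), e,
    setIntegral_indicator measurableSet_Ici]
  rcases le_or_gt s t₁ with h1 | h1
  · rw [max_eq_left h1]
    congr 2
    ext t
    simp only [Set.mem_inter_iff, Set.mem_Ioc, Set.mem_Ici]
    constructor
    · exact fun h => h.1
    · exact fun h => ⟨h, by linarith [h.1]⟩
  · rw [max_eq_right h1.le, ← integral_Icc_eq_integral_Ioc]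
    congr 2
    ext t
    simp only [Set.mem_inter_iff, Set.mem_Ioc, Set.mem_Ici, Set.mem_Icc]
    constructor
    · exact fun h => ⟨h.2, h.1.2⟩
    · exact fun h => ⟨⟨by linarith [h.1], h.2⟩, h.1⟩

lemma cut_max {N m : ℝ} (hN : 0 ≤ N) (hm : 0 ≤ m) :
    max (2 * Real.pi * N ^ 2) (2 * Real.pi * m ^ 2) = 2 * Real.pi * (max N m) ^ 2 := by
  have hpi := Real.pi_pos
  rcases le_total N m with h | h
  · rw [max_eq_right h, max_eq_right]
    gcongr
  · rw [max_eq_left h, max_eq_left]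
    gcongr

/-- `A(t)` as a sum of fixed length. -/
lemma A_eq {N t : ℝ} (hN : 1 ≤ N) (ht1 : 2 * Real.pi * N ^ 2 ≤ t)
    (ht2 : t ≤ 2 * (2 * Real.pi * N ^ 2)) :
    A t = ∑ n ∈ Icc 1 ⌊Real.sqrt 2 * N⌋₊,
      (if 2 * Real.pi * (n : ℝ) ^ 2 ≤ t then zt n t else 0) := by
  have hpi := Real.pi_pos
  rw [← Finset.sum_filter]
  unfold A
  refine Finset.sum_congr ?_ fun _ _ => rfl
  ext n
  simp only [Finset.mem_Icc, Finset.mem_filter]
  have ht0 : 0 ≤ t / (2 * Real.pi) := by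
    apply div_nonneg (le_trans (by positivity) ht1) (by positivity)
  have key : n ≤ ⌊Real.sqrt (t / (2 * Real.pi))⌋₊ ↔ 2 * Real.pi * (n : ℝ) ^ 2 ≤ t := by
    rw [Nat.le_floor_iff (Real.sqrt_nonneg _), Real.le_sqrt (Nat.cast_nonneg _) ht0,
      le_div_iff₀ (by positivity)]
    constructor <;> intro h <;> linarith
  have key2 : 2 * Real.pi * (n : ℝ) ^ 2 ≤ t → n ≤ ⌊Real.sqrt 2 * N⌋₊ := by
    intro h
    apply Nat.le_floor
    have h1 : (n : ℝ) ^ 2 ≤ 2 * N ^ 2 := by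
      have : 2 * Real.pi * (n : ℝ) ^ 2 ≤ 2 * Real.pi * (2 * N ^ 2) := by linarith
      exact le_of_mul_le_mul_left this (by positivity)
    have h2 : (Real.sqrt 2 * N) ^ 2 = 2 * N ^ 2 := by
      rw [mul_pow, Real.sq_sqrt (by norm_num)]
    exact abs_le_of_sq_le_sq' (by rw [h2]; exact h1) (by positivity) |>.2
  constructor
  · rintro ⟨h1, h2⟩
    exact ⟨⟨h1, key2 (key.1 h2)⟩, key.1 h2⟩
  · rintro ⟨⟨h1, _⟩, h3⟩
    exact ⟨h1, key.2 h3⟩

lemma cond_max {a b c : ℕ} {t : ℝ} :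
    (2 * Real.pi * (max (a : ℝ) (max (b : ℝ) c)) ^ 2 ≤ t) ↔
      (2 * Real.pi * (a : ℝ) ^ 2 ≤ t ∧ 2 * Real.pi * (b : ℝ) ^ 2 ≤ t ∧
        2 * Real.pi * (c : ℝ) ^ 2 ≤ t) := by
  have ha : (0 : ℝ) ≤ a := Nat.cast_nonneg _
  have hb : (0 : ℝ) ≤ b := Nat.cast_nonneg _
  have hc : (0 : ℝ) ≤ c := Nat.cast_nonneg _
  rw [← cut_max ha (le_max_of_le_left hb), ← cut_max hb hc, max_le_iff, max_le_iff]

lemma triple_sum {M : ℕ} (f g h : ℕ → ℂ) :
    (∑ a ∈ Icc 1 M, f a) * (∑ b ∈ Icc 1 M, g b) * (∑ c ∈ Icc 1 M, h c) =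
      ∑ a ∈ Icc 1 M, ∑ b ∈ Icc 1 M, ∑ c ∈ Icc 1 M, f a * g b * h c := by
  rw [Finset.sum_mul_sum, Finset.sum_mul]
  refine Finset.sum_congr rfl fun a _ => ?_
  rw [Finset.sum_mul]
  refine Finset.sum_congr rfl fun b _ => ?_
  rw [Finset.mul_sum]

lemma sqrt3 {a b c : ℕ} : ((1 / Real.sqrt ((a : ℝ) * b * c) : ℝ) : ℂ) =
    ((1 / Real.sqrt a : ℝ) : ℂ) * ((1 / Real.sqrt b : ℝ) : ℂ) * ((1 / Real.sqrt c : ℝ) : ℂ) := by
  rw [← Complex.ofReal_mul, ← Complex.ofReal_mul, Real.sqrt_mul (by positivity),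
    Real.sqrt_mul (by positivity)]
  congr 1
  rw [div_mul_div_comm, div_mul_div_comm]
  simp

lemma term1 {a b c : ℕ} (ha : 1 ≤ a) (hb : 1 ≤ b) (hc : 1 ≤ c) (t : ℝ) :
    ei (th0 t) ^ 3 * (zt a t * zt b t * zt c t) =
      ((1 / Real.sqrt ((a : ℝ) * b * c) : ℝ) : ℂ) *
        ei (3 * th0 t - t * Real.log ((a : ℝ) * b * c)) := by
  have ha0 : (a : ℝ) ≠ 0 := by positivity
  have hb0 : (b : ℝ) ≠ 0 := by positivity
  have hc0 : (c : ℝ) ≠ 0 := by positivity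
  rw [sqrt3, Real.log_mul (by positivity) hc0, Real.log_mul ha0 hb0]
  have e : 3 * th0 t - t * (Real.log a + Real.log b + Real.log c) =
      ((3 : ℕ) : ℝ) * th0 t + -(t * Real.log a) + -(t * Real.log b) + -(t * Real.log c) := by
    push_cast; ring
  rw [e, ei_add, ei_add, ei_add, ← ei_pow]
  unfold zt
  ring

lemma term2 {a b c : ℕ} (ha : 1 ≤ a) (hb : 1 ≤ b) (hc : 1 ≤ c) (t : ℝ) :
    ei (th0 t) ^ 2 * (starRingEnd ℂ) (ei (th0 t)) * (zt a t * zt b t * (starRingEnd ℂ) (zt c t)) =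
      ((1 / Real.sqrt ((a : ℝ) * b * c) : ℝ) : ℂ) *
        ei (th0 t - t * Real.log ((a : ℝ) * b / c)) := by
  have ha0 : (a : ℝ) ≠ 0 := by positivity
  have hb0 : (b : ℝ) ≠ 0 := by positivity
  have hc0 : (c : ℝ) ≠ 0 := by positivity
  rw [sqrt3, Real.log_div (by positivity) hc0, Real.log_mul ha0 hb0]
  have e : th0 t - t * (Real.log a + Real.log b - Real.log c) =
      ((2 : ℕ) : ℝ) * th0 t + -(th0 t) + -(t * Real.log a) + -(t * Real.log b) +
        -(-(t * Real.log c)) := by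
    push_cast; ring
  rw [e, ei_add, ei_add, ei_add, ei_add, ← ei_pow]
  unfold zt
  rw [map_mul, Complex.conj_ofReal, conj_ei, conj_ei]
  ring

lemma cont_th0 {t₁ t₂ : ℝ} (h : 0 < t₁) : ContinuousOn th0 (Set.Icc t₁ t₂) := by
  unfold th0
  have h1 : ContinuousOn (fun t : ℝ => Real.log (t / (2 * Real.pi))) (Set.Icc t₁ t₂) := by
    apply ContinuousOn.log
    · fun_prop
    · intro x hx
      have : 0 < x := h.trans_le hx.1
      have := Real.pi_pos
      positivity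
  fun_prop

lemma ii_sum {ι : Type} (s : Finset ι) (f : ι → ℝ → ℂ) {a b : ℝ}
    (h : ∀ i ∈ s, IntervalIntegrable (f i) volume a b) :
    IntervalIntegrable (fun t => ∑ i ∈ s, f i t) volume a b := by
  have e : (fun t => ∑ i ∈ s, f i t) = ∑ i ∈ s, f i := by
    funext t
    rw [Finset.sum_apply]
  rw [e]
  exact IntervalIntegrable.sum s h

lemma expand (F : ℕ → ℕ → ℕ → ℝ → ℂ) (H : ℝ → ℂ) {N : ℝ} (hN : 1 ≤ N)
    (hF : ∀ a b c : ℕ, ContinuousOn (F a b c)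
      (Set.Icc (2 * Real.pi * N ^ 2) (2 * (2 * Real.pi * N ^ 2))))
    (hH : ∀ t, 2 * Real.pi * N ^ 2 ≤ t → t ≤ 2 * (2 * Real.pi * N ^ 2) → H t =
      ∑ a ∈ Icc 1 ⌊Real.sqrt 2 * N⌋₊, ∑ b ∈ Icc 1 ⌊Real.sqrt 2 * N⌋₊,
        ∑ c ∈ Icc 1 ⌊Real.sqrt 2 * N⌋₊, if 2 * Real.pi * (max (a : ℝ) (max (b : ℝ) c)) ^ 2 ≤ t
          then ((1 / Real.sqrt ((a : ℝ) * b * c) : ℝ) : ℂ) * F a b c t else 0) :
    (∫ t in (2 * Real.pi * N ^ 2)..(2 * (2 * Real.pi * N ^ 2)), H t) =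
      ∑ a ∈ Icc 1 ⌊Real.sqrt 2 * N⌋₊, ∑ b ∈ Icc 1 ⌊Real.sqrt 2 * N⌋₊,
        ∑ c ∈ Icc 1 ⌊Real.sqrt 2 * N⌋₊, ((1 / Real.sqrt ((a : ℝ) * b * c) : ℝ) : ℂ) *
          ∫ t in (2 * Real.pi * (max N (max (a : ℝ) (max (b : ℝ) c))) ^ 2)..
            (2 * (2 * Real.pi * N ^ 2)), F a b c t := by
  have hpi := Real.pi_pos
  have hle : 2 * Real.pi * N ^ 2 ≤ 2 * (2 * Real.pi * N ^ 2) := by
    have : 0 ≤ 2 * Real.pi * N ^ 2 := by positivity
    linarith
  have h1 : (∫ t in (2 * Real.pi * N ^ 2)..(2 * (2 * Real.pi * N ^ 2)), H t) =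
      ∫ t in (2 * Real.pi * N ^ 2)..(2 * (2 * Real.pi * N ^ 2)),
        ∑ a ∈ Icc 1 ⌊Real.sqrt 2 * N⌋₊, ∑ b ∈ Icc 1 ⌊Real.sqrt 2 * N⌋₊,
        ∑ c ∈ Icc 1 ⌊Real.sqrt 2 * N⌋₊, if 2 * Real.pi * (max (a : ℝ) (max (b : ℝ) c)) ^ 2 ≤ t
          then ((1 / Real.sqrt ((a : ℝ) * b * c) : ℝ) : ℂ) * F a b c t else 0 := by
    apply intervalIntegral.integral_congr
    intro t ht
    rw [Set.uIcc_of_le hle] at ht
    exact hH t ht.1 ht.2
  rw [h1]
  have hint : ∀ a b c : ℕ, IntervalIntegrable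
      (fun t => if 2 * Real.pi * (max (a : ℝ) (max (b : ℝ) c)) ^ 2 ≤ t
          then ((1 / Real.sqrt ((a : ℝ) * b * c) : ℝ) : ℂ) * F a b c t else 0) volume
      (2 * Real.pi * N ^ 2) (2 * (2 * Real.pi * N ^ 2)) := fun a b c =>
    integrable_cut hle (continuousOn_const.mul (hF a b c))
  rw [intervalIntegral.integral_finsetSum]
  swap
  · intro a _
    exact ii_sum _ _ fun b _ => ii_sum _ _ fun c _ => hint a b c
  refine Finset.sum_congr rfl fun a ha => ?_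
  rw [intervalIntegral.integral_finsetSum]
  swap
  · intro b _
    exact ii_sum _ _ fun c _ => hint a b c
  refine Finset.sum_congr rfl fun b hb => ?_
  rw [intervalIntegral.integral_finsetSum]
  swap
  · intro c _
    exact hint a b c
  refine Finset.sum_congr rfl fun c hc => ?_
  have ha' : (a : ℝ) ≤ Real.sqrt 2 * N := by
    have := (Finset.mem_Icc.1 ha).2
    exact (Nat.le_floor_iff (by positivity)).1 this
  have hb' : (b : ℝ) ≤ Real.sqrt 2 * N := by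
    have := (Finset.mem_Icc.1 hb).2
    exact (Nat.le_floor_iff (by positivity)).1 this
  have hc' : (c : ℝ) ≤ Real.sqrt 2 * N := by
    have := (Finset.mem_Icc.1 hc).2
    exact (Nat.le_floor_iff (by positivity)).1 this
  have hm0 : 0 ≤ max (a : ℝ) (max (b : ℝ) c) := le_max_of_le_left (Nat.cast_nonneg _)
  have hm : max (a : ℝ) (max (b : ℝ) c) ≤ Real.sqrt 2 * N := max_le ha' (max_le hb' hc')
  rw [integral_cut hle, cut_max (by linarith) hm0, intervalIntegral.integral_const_mul]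
  have h2 : (max (a : ℝ) (max (b : ℝ) c)) ^ 2 ≤ (Real.sqrt 2 * N) ^ 2 := by gcongr
  rw [mul_pow, Real.sq_sqrt (by norm_num)] at h2
  nlinarith

theorem exp : TExp := by
  intro N hN
  have hpi := Real.pi_pos
  have hpos : 0 < 2 * Real.pi * N ^ 2 := by positivity
  constructor
  · refine expand (fun a b c t => ei (3 * th0 t - t * Real.log ((a : ℝ) * b * c)))
      (fun t => P t ^ 3) hN ?_ ?_
    · intro a b c
      apply continuous_ei.comp_continuousOn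
      have := cont_th0 (t₂ := 2 * (2 * Real.pi * N ^ 2)) hpos
      fun_prop
    · intro t h1 h2
      unfold P
      have e : (ei (th0 t) * A t) ^ 3 = ei (th0 t) ^ 3 * (A t * A t * A t) := by ring
      rw [e, A_eq hN h1 h2, triple_sum, Finset.mul_sum]
      refine Finset.sum_congr rfl fun a ha => ?_
      rw [Finset.mul_sum]
      refine Finset.sum_congr rfl fun b hb => ?_
      rw [Finset.mul_sum]
      refine Finset.sum_congr rfl fun c hc => ?_
      rw [← term1 (Finset.mem_Icc.1 ha).1 (Finset.mem_Icc.1 hb).1 (Finset.mem_Icc.1 hc).1 t]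
      by_cases h3 : 2 * Real.pi * (max (a : ℝ) (max (b : ℝ) c)) ^ 2 ≤ t
      · rw [if_pos h3]
        obtain ⟨g1, g2, g3⟩ := cond_max.1 h3
        rw [if_pos g1, if_pos g2, if_pos g3]
      · rw [if_neg h3]
        have h4 : ¬ (2 * Real.pi * (a : ℝ) ^ 2 ≤ t ∧ 2 * Real.pi * (b : ℝ) ^ 2 ≤ t ∧
          2 * Real.pi * (c : ℝ) ^ 2 ≤ t) := fun h => h3 (cond_max.2 h)
        by_cases g1 : 2 * Real.pi * (a : ℝ) ^ 2 ≤ t
        · by_cases g2 : 2 * Real.pi * (b : ℝ) ^ 2 ≤ t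
          · by_cases g3 : 2 * Real.pi * (c : ℝ) ^ 2 ≤ t
            · exact absurd ⟨g1, g2, g3⟩ h4
            · rw [if_neg g3]; simp
          · rw [if_neg g2]; simp
        · rw [if_neg g1]; simp
  · refine expand (fun a b c t => ei (th0 t - t * Real.log ((a : ℝ) * b / c)))
      (fun t => P t ^ 2 * (starRingEnd ℂ) (P t)) hN ?_ ?_
    · intro a b c
      apply continuous_ei.comp_continuousOn
      have := cont_th0 (t₂ := 2 * (2 * Real.pi * N ^ 2)) hpos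
      fun_prop
    · intro t h1 h2
      unfold P
      have e : (ei (th0 t) * A t) ^ 2 * (starRingEnd ℂ) (ei (th0 t) * A t) =
          ei (th0 t) ^ 2 * (starRingEnd ℂ) (ei (th0 t)) * (A t * A t * (starRingEnd ℂ) (A t)) := by
        rw [map_mul]; ring
      rw [e, A_eq hN h1 h2, map_sum, triple_sum, Finset.mul_sum]
      refine Finset.sum_congr rfl fun a ha => ?_
      rw [Finset.mul_sum]
      refine Finset.sum_congr rfl fun b hb => ?_
      rw [Finset.mul_sum]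
      refine Finset.sum_congr rfl fun c hc => ?_
      rw [← term2 (Finset.mem_Icc.1 ha).1 (Finset.mem_Icc.1 hb).1 (Finset.mem_Icc.1 hc).1 t]
      by_cases h3 : 2 * Real.pi * (max (a : ℝ) (max (b : ℝ) c)) ^ 2 ≤ t
      · rw [if_pos h3]
        obtain ⟨g1, g2, g3⟩ := cond_max.1 h3
        rw [if_pos g1, if_pos g2, if_pos g3]
      · rw [if_neg h3]
        have h4 : ¬ (2 * Real.pi * (a : ℝ) ^ 2 ≤ t ∧ 2 * Real.pi * (b : ℝ) ^ 2 ≤ t ∧
          2 * Real.pi * (c : ℝ) ^ 2 ≤ t) := fun h => h3 (cond_max.2 h)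
        by_cases g1 : 2 * Real.pi * (a : ℝ) ^ 2 ≤ t
        · by_cases g2 : 2 * Real.pi * (b : ℝ) ^ 2 ≤ t
          · by_cases g3 : 2 * Real.pi * (c : ℝ) ^ 2 ≤ t
            · exact absurd ⟨g1, g2, g3⟩ h4
            · rw [if_neg g3]; simp
          · rw [if_neg g2]; simp
        · rw [if_neg g1]; simp

end Pool.Agent.H33.Cubic
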