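import Pool.Agent.H98.Cubic.Targets

/-!
# Least denominators (module Farey of the cubic moment of Hardy's function)
-/

set_option autoImplicit false

open Finset

namespace Pool.Agent.H33.Cubic

open Pool.Agent.H98.Cubic

lemma nd_le (x : ℝ) (m : ℤ) : nd x ≤ |x - m| := round_le x m

lemma fareyA (Q ξ : ℝ) (hQ : 1 ≤ Q) : ∃ q : ℕ, IsDen Q ξ q ∧ (q : ℝ) ≤ Q := by
  classical
  have hn : 0 < ⌊Q⌋₊ := Nat.floor_pos.2 hQ
  obtain ⟨k, hk0, hkn, hk⟩ := Real.exists_nat_abs_mul_sub_round_le ξ hn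
  have hlt : Q < (⌊Q⌋₊ : ℝ) + 1 := Nat.lt_floor_add_one Q
  have hP : ∃ q : ℕ, 1 ≤ q ∧ nd (q * ξ) ≤ 1 / Q := by
    refine ⟨k, hk0, ?_⟩
    unfold nd
    refine hk.trans ?_
    apply one_div_le_one_div_of_le (by linarith) hlt.le
  refine ⟨Nat.find hP, ⟨(Nat.find_spec hP).1, (Nat.find_spec hP).2, ?_⟩, ?_⟩
  · intro q' h1 h2
    by_contra hcon
    exact Nat.find_min hP h2 ⟨h1, not_lt.1 hcon⟩
  · have h1 : Nat.find hP ≤ k := by
      apply Nat.find_min' hP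
      refine ⟨hk0, ?_⟩
      unfold nd
      refine hk.trans ?_
      apply one_div_le_one_div_of_le (by linarith) hlt.le
    have h2 : (Nat.find hP : ℝ) ≤ k := by exact_mod_cast h1
    have h3 : (k : ℝ) ≤ ⌊Q⌋₊ := by exact_mod_cast hkn
    exact h2.trans (h3.trans (Nat.floor_le (by linarith)))

lemma fareyB (Q ξ : ℝ) (q : ℕ) (hQ : 1 ≤ Q) (h : IsDen Q ξ q) :
    Int.gcd (round (q * ξ)) q = 1 := by
  obtain ⟨hq, hnd, hmin⟩ := h
  set p : ℤ := round ((q : ℝ) * ξ) with hp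
  set d := Int.gcd p q with hd
  have hd0 : 0 < d := by
    apply Int.gcd_pos_of_ne_zero_right
    exact_mod_cast (by omega : q ≠ 0)
  by_contra hne
  have hd2 : 2 ≤ d := by omega
  obtain ⟨p', hp'⟩ : (d : ℤ) ∣ p := Int.gcd_dvd_left ..
  obtain ⟨q', hq'⟩ : (d : ℤ) ∣ (q : ℤ) := Int.gcd_dvd_right ..
  have hdz : (0 : ℤ) < d := by exact_mod_cast hd0
  have hq'0 : 0 < q' := by
    have h1 : (0 : ℤ) < (q : ℤ) := by exact_mod_cast hq
    rw [hq'] at h1
    exact pos_of_mul_pos_right h1 hdz.le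
  have hq'lt : q' < q := by
    have h2 : (2 : ℤ) ≤ d := by exact_mod_cast hd2
    nlinarith
  lift q' to ℕ using hq'0.le
  have hq'1 : 1 ≤ q' := by exact_mod_cast hq'0
  have hlt : q' < q := by exact_mod_cast hq'lt
  have h3 := hmin q' hq'1 hlt
  have h4 : nd ((q' : ℝ) * ξ) ≤ |(q' : ℝ) * ξ - p'| := nd_le _ _
  have hdR : (0 : ℝ) < d := by exact_mod_cast hd0
  have h5 : (q : ℝ) * ξ - p = d * ((q' : ℝ) * ξ - p') := by
    have e1 : (q : ℝ) = d * q' := by exact_mod_cast hq'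
    have e2 : (p : ℝ) = d * p' := by exact_mod_cast hp'
    rw [e1, e2]; ring
  have h6 : nd ((q : ℝ) * ξ) = d * |(q' : ℝ) * ξ - p'| := by
    unfold nd
    rw [← hp, h5, abs_mul, abs_of_pos hdR]
  have h7 : |(q' : ℝ) * ξ - p'| ≤ nd ((q : ℝ) * ξ) := by
    rw [h6]
    have : (1 : ℝ) ≤ d := by exact_mod_cast hd0
    nlinarith [abs_nonneg ((q' : ℝ) * ξ - p')]
  linarith

lemma mono_xi {p q : ℕ} {g : ℤ} (hq : 1 ≤ q) {a b : ℕ} (ha : 1 ≤ a) (hab : a ≤ b) (hg : 0 < g) :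
    ((p : ℝ) * b + g) / (q * b) ≤ ((p : ℝ) * a + g) / (q * a) := by
  have hq0 : (0 : ℝ) < q := by exact_mod_cast hq
  have ha0 : (0 : ℝ) < a := by exact_mod_cast ha
  have hab' : (a : ℝ) ≤ b := by exact_mod_cast hab
  have hb0 : (0 : ℝ) < b := by linarith
  have hg0 : (0 : ℝ) < g := by exact_mod_cast hg
  rw [div_le_div_iff₀ (by positivity) (by positivity)]
  nlinarith [mul_nonneg (mul_nonneg hq0.le hg0.le) (sub_nonneg.2 hab')]

lemma anti_xi {p q : ℕ} {g : ℤ} (hq : 1 ≤ q) {a b : ℕ} (ha : 1 ≤ a) (hab : a ≤ b) (hg : g < 0) :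
    ((p : ℝ) * a + g) / (q * a) ≤ ((p : ℝ) * b + g) / (q * b) := by
  have hq0 : (0 : ℝ) < q := by exact_mod_cast hq
  have ha0 : (0 : ℝ) < a := by exact_mod_cast ha
  have hab' : (a : ℝ) ≤ b := by exact_mod_cast hab
  have hb0 : (0 : ℝ) < b := by linarith
  have hg0 : (g : ℝ) < 0 := by exact_mod_cast hg
  rw [div_le_div_iff₀ (by positivity) (by positivity)]
  nlinarith [mul_nonneg (mul_nonneg hq0.le (neg_nonneg.2 hg0.le)) (sub_nonneg.2 hab')]

/-- the linear form `q' ξ_k - p'`. -/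
lemma form_eq {p q : ℕ} {g : ℤ} (hq : 1 ≤ q) {k : ℕ} (hk : 1 ≤ k) (q' p' : ℝ) :
    q' * (((p : ℝ) * k + g) / (q * k)) - p' = (q' * p - p' * q) / q + q' / q * (g / k) := by
  have hq0 : (q : ℝ) ≠ 0 := by positivity
  have hk0 : (k : ℝ) ≠ 0 := by positivity
  field_simp
  ring

lemma fareyC (Q : ℝ) (p q : ℕ) (g : ℤ) (hQ : 4 ≤ Q) (hq : 1 ≤ q) (hqQ : (q : ℝ) ≤ Q)
    (hpq : Nat.Coprime p q) (hg : g ≠ 0) :
    {k : ℕ | 1 ≤ k ∧ IsDen Q (((p : ℝ) * k + g) / (q * k)) q ∧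
        |(g : ℝ)| * Q ≤ k}.OrdConnected := by
  have hq0 : (0 : ℝ) < q := by exact_mod_cast hq
  have hQ0 : (0 : ℝ) < Q := by linarith
  refine ⟨?_⟩
  rintro k₁ ⟨h1a, h1b, h1c⟩ k₃ ⟨h3a, h3b, h3c⟩ k₂ ⟨h12, h23⟩
  have h2a : 1 ≤ k₂ := h1a.trans h12
  have h2c : |(g : ℝ)| * Q ≤ k₂ := h1c.trans (by exact_mod_cast h12)
  refine ⟨h2a, ⟨hq, ?_, ?_⟩, h2c⟩
  · refine (nd_le _ (p : ℤ)).trans ?_
    have hk0 : (0 : ℝ) < k₂ := by exact_mod_cast h2a
    have e : (q : ℝ) * (((p : ℝ) * k₂ + g) / (q * k₂)) - ((p : ℤ) : ℝ) = g / k₂ := by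
      push_cast
      field_simp
      ring
    rw [e, abs_div, abs_of_pos hk0, div_le_div_iff₀ hk0 hQ0]
    linarith
  · intro q' hq'1 hq'q
    by_contra hcon
    rw [not_lt] at hcon
    set ξ := ((p : ℝ) * k₂ + g) / (q * k₂) with hξ
    set p' : ℤ := round ((q' : ℝ) * ξ) with hp'
    have hq'0 : (0 : ℝ) < q' := by exact_mod_cast hq'1
    have hq'lt : (q' : ℝ) < q := by exact_mod_cast hq'q
    have hc : |(q' : ℝ) * ξ - p'| ≤ 1 / Q := hcon
    have hQinv : 0 < 1 / Q := by positivity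
    -- p'/q' ≠ p/q
    have hne : (q' : ℤ) * p - p' * q ≠ 0 := by
      intro h0
      have h1 : (q : ℤ) ∣ (q' : ℤ) * p := ⟨p', by linarith⟩
      have h2 : (q : ℤ) ∣ (q' : ℤ) := by
        have hcop : IsCoprime (q : ℤ) (p : ℤ) := Nat.isCoprime_iff_coprime.2 hpq.symm
        exact hcop.dvd_of_dvd_mul_right h1
      have h3 : q ∣ q' := by exact_mod_cast h2
      exact absurd (Nat.le_of_dvd (by omega) h3) (by omega)
    have hk1 : (0 : ℝ) < k₁ := by exact_mod_cast h1a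
    have hk2 : (0 : ℝ) < k₂ := by exact_mod_cast h2a
    have hk3 : (0 : ℝ) < k₃ := by exact_mod_cast h3a
    have hgk : ∀ k : ℕ, (0 : ℝ) < k → |(g : ℝ)| * Q ≤ k → |(q' : ℝ) / q * (g / k)| < 1 / Q := by
      intro k hk hkc
      rw [abs_mul, abs_div, abs_div, abs_of_pos hq'0, abs_of_pos hq0, abs_of_pos hk]
      have h1 : |(g : ℝ)| / k ≤ 1 / Q := by
        rw [div_le_div_iff₀ hk hQ0]
        linarith
      have h2 : (q' : ℝ) / q < 1 := by
        rw [div_lt_one hq0]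
        exact hq'lt
      have h3 : 0 ≤ |(g : ℝ)| / k := by positivity
      have h4 : 0 < (q' : ℝ) / q := by positivity
      calc (q' : ℝ) / q * (|(g : ℝ)| / k) ≤ (q' : ℝ) / q * (1 / Q) := by gcongr
        _ < 1 * (1 / Q) := by gcongr
        _ = 1 / Q := one_mul _
    have hviol1 : ¬ |(q' : ℝ) * (((p : ℝ) * k₁ + g) / (q * k₁)) - p'| ≤ 1 / Q := by
      intro h
      exact absurd (h1b.2.2 q' hq'1 hq'q) (not_lt.2 ((nd_le _ p').trans h))
    have hviol3 : ¬ |(q' : ℝ) * (((p : ℝ) * k₃ + g) / (q * k₃)) - p'| ≤ 1 / Q := by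
      intro h
      exact absurd (h3b.2.2 q' hq'1 hq'q) (not_lt.2 ((nd_le _ p').trans h))
    have f1 := form_eq (p := p) (g := g) hq h1a (q' : ℝ) (p' : ℝ)
    have f3 := form_eq (p := p) (g := g) hq h3a (q' : ℝ) (p' : ℝ)
    have a1 := abs_lt.1 (hgk k₁ hk1 h1c)
    have a3 := abs_lt.1 (hgk k₃ hk3 h3c)
    have ac := abs_le.1 hc
    rcases lt_or_gt_of_ne hg with hgn | hgp
    · -- g < 0
      have m12 : (q' : ℝ) * (((p : ℝ) * k₁ + g) / (q * k₁)) ≤ q' * ξ :=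
        mul_le_mul_of_nonneg_left (anti_xi hq h1a h12 hgn) hq'0.le
      have m23 : (q' : ℝ) * ξ ≤ (q' : ℝ) * (((p : ℝ) * k₃ + g) / (q * k₃)) :=
        mul_le_mul_of_nonneg_left (anti_xi hq h2a h23 hgn) hq'0.le
      rcases lt_or_gt_of_ne hne with hneg | hpos
      · -- p'/q' > p/q
        apply hviol3
        have hle : (q' : ℝ) * p - p' * q ≤ 0 := by exact_mod_cast hneg.le
        have h0 : ((q' : ℝ) * p - p' * q) / q ≤ 0 := div_nonpos_of_nonpos_of_nonneg hle hq0.le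
        rw [abs_le]
        constructor
        · linarith
        · rw [f3]; linarith
      · apply hviol1
        have hle : 0 ≤ (q' : ℝ) * p - p' * q := by exact_mod_cast hpos.le
        have h0 : 0 ≤ ((q' : ℝ) * p - p' * q) / q := div_nonneg hle hq0.le
        rw [abs_le]
        constructor
        · rw [f1]; linarith
        · linarith
    · have m12 : (q' : ℝ) * ξ ≤ (q' : ℝ) * (((p : ℝ) * k₁ + g) / (q * k₁)) :=
        mul_le_mul_of_nonneg_left (mono_xi hq h1a h12 hgp) hq'0.le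
      have m23 : (q' : ℝ) * (((p : ℝ) * k₃ + g) / (q * k₃)) ≤ (q' : ℝ) * ξ :=
        mul_le_mul_of_nonneg_left (mono_xi hq h2a h23 hgp) hq'0.le
      rcases lt_or_gt_of_ne hne with hneg | hpos
      · apply hviol1
        have hle : (q' : ℝ) * p - p' * q ≤ 0 := by exact_mod_cast hneg.le
        have h0 : ((q' : ℝ) * p - p' * q) / q ≤ 0 := div_nonpos_of_nonpos_of_nonneg hle hq0.le
        rw [abs_le]
        constructor
        · linarith
        · rw [f1]; linarith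
      · apply hviol3
        have hle : 0 ≤ (q' : ℝ) * p - p' * q := by exact_mod_cast hpos.le
        have h0 : 0 ≤ ((q' : ℝ) * p - p' * q) / q := div_nonneg hle hq0.le
        rw [abs_le]
        constructor
        · rw [f3]; linarith
        · linarith

theorem farey : TFarey :=
  ⟨fareyA, fun Q ξ q hQ h => fareyB Q ξ q hQ h, fareyC⟩

end Pool.Agent.H33.Cubic
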