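import Pool.Agent.H98.Cubic.Targets
import Pool.Agent.H98.Cubic.Basic

/-!
# From boxes to the exponential sum (module W of the cubic moment of Hardy's function)
-/

set_option autoImplicit false

open Finset

namespace Pool.Agent.H33.Cubic

open Pool.Agent.H98.Cubic

/-- the index set of a box. -/
noncomputable def box (N : ℝ) (K₀ Y : ℕ) : Finset (ℕ × ℕ × ℕ) :=
  ((Ico K₀ (2 * K₀)) ×ˢ ((Ico Y (2 * Y)) ×ˢ
      (Icc 1 ⌊Real.sqrt 2 * N⌋₊))).filter (fun x : ℕ × ℕ × ℕ =>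
        x.1 ≤ x.2.1 ∧ x.1 ≤ x.2.2 ∧ N * x.1 ≤ (x.2.1 : ℝ) * x.2.2 ∧
          (x.2.1 : ℝ) * x.2.2 ≤ Real.sqrt 2 * N * x.1)

lemma mem_box {N : ℝ} {K₀ Y : ℕ} {x : ℕ × ℕ × ℕ} : x ∈ box N K₀ Y ↔
    ((K₀ ≤ x.1 ∧ x.1 < 2 * K₀) ∧ (Y ≤ x.2.1 ∧ x.2.1 < 2 * Y) ∧
      (1 ≤ x.2.2 ∧ x.2.2 ≤ ⌊Real.sqrt 2 * N⌋₊)) ∧
      (x.1 ≤ x.2.1 ∧ x.1 ≤ x.2.2 ∧ N * x.1 ≤ (x.2.1 : ℝ) * x.2.2 ∧
          (x.2.1 : ℝ) * x.2.2 ≤ Real.sqrt 2 * N * x.1) := by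
  simp only [box, Finset.mem_filter, Finset.mem_product, Finset.mem_Ico, Finset.mem_Icc]

noncomputable def fe (x : ℕ × ℕ × ℕ) : ℂ :=
  ee ((x.2.1 : ℝ) ^ 2 * (x.2.2 : ℝ) ^ 2 / (2 * (x.1 : ℝ) ^ 2))

lemma BS_eq_box (N : ℝ) (K₀ Y : ℕ) (c₁ c₂ c₃ : ℝ) : BS N K₀ Y c₁ c₂ c₃ =
    ∑ x ∈ (((box N K₀ Y).filter (fun x : ℕ × ℕ × ℕ => (x.2.1 : ℝ) ≤ c₁)).filter
      (fun x : ℕ × ℕ × ℕ => (x.2.2 : ℝ) ≤ c₂)).filter (fun x : ℕ × ℕ × ℕ => (x.1 : ℝ) ≤ c₃),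
      fe x := by
  unfold BS fe
  refine Finset.sum_congr ?_ fun _ _ => rfl
  ext x
  simp only [Finset.mem_filter, mem_box, Finset.mem_product, Finset.mem_Ico, Finset.mem_Icc]
  tauto

/-- `u ≤ 2√2 N K₀ / Y` on a box. -/
lemma u_le {N : ℝ} (hN : 1 ≤ N) {K₀ Y : ℕ} (hY : 1 ≤ Y) {x : ℕ × ℕ × ℕ}
    (hx : x ∈ box N K₀ Y) : (x.2.2 : ℝ) ≤ 2 * Real.sqrt 2 * N * K₀ / Y := by
  rw [mem_box] at hx
  obtain ⟨⟨⟨h1, h2⟩, ⟨h3, h4⟩, h5, h6⟩, h7, h8, h9, h10⟩ := hx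
  have hY0 : (0 : ℝ) < Y := by exact_mod_cast hY
  have a1 : (x.1 : ℝ) ≤ 2 * K₀ := by exact_mod_cast h2.le
  have a2 : (Y : ℝ) ≤ x.2.1 := by exact_mod_cast h3
  have hs : 0 ≤ Real.sqrt 2 := Real.sqrt_nonneg _
  rw [le_div_iff₀ hY0]
  calc (x.2.2 : ℝ) * Y ≤ x.2.2 * x.2.1 := by gcongr
    _ = (x.2.1 : ℝ) * x.2.2 := mul_comm _ _
    _ ≤ Real.sqrt 2 * N * x.1 := h10
    _ ≤ Real.sqrt 2 * N * (2 * K₀) := by gcongr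
    _ = 2 * Real.sqrt 2 * N * K₀ := by ring

lemma card_box {N : ℝ} (hN : 1 ≤ N) {K₀ Y : ℕ} (hY : 1 ≤ Y) :
    ((box N K₀ Y).card : ℝ) ≤ 2 * Real.sqrt 2 * N * K₀ ^ 2 := by
  have hY0 : (0 : ℝ) < Y := by exact_mod_cast hY
  have hsub : box N K₀ Y ⊆ (Ico K₀ (2 * K₀)) ×ˢ ((Ico Y (2 * Y)) ×ˢ
      (Icc 1 ⌊2 * Real.sqrt 2 * N * K₀ / Y⌋₊)) := by
    intro x hx
    have h := u_le hN hY hx
    rw [mem_box] at hx
    simp only [Finset.mem_product, Finset.mem_Ico, Finset.mem_Icc]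
    exact ⟨hx.1.1, hx.1.2.1, hx.1.2.2.1, Nat.le_floor h⟩
  have h1 := Finset.card_le_card hsub
  simp only [Finset.card_product, Nat.card_Ico, Nat.card_Icc] at h1
  have h2 : 2 * K₀ - K₀ = K₀ := by omega
  have h3 : 2 * Y - Y = Y := by omega
  rw [h2, h3, Nat.add_sub_cancel] at h1
  have h4 : ((box N K₀ Y).card : ℝ) ≤ K₀ * (Y * (⌊2 * Real.sqrt 2 * N * K₀ / Y⌋₊ : ℝ)) := by
    exact_mod_cast h1
  have h5 : (⌊2 * Real.sqrt 2 * N * K₀ / Y⌋₊ : ℝ) ≤ 2 * Real.sqrt 2 * N * K₀ / Y :=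
    Nat.floor_le (by positivity)
  calc ((box N K₀ Y).card : ℝ) ≤ K₀ * (Y * (⌊2 * Real.sqrt 2 * N * K₀ / Y⌋₊ : ℝ)) := h4
    _ ≤ K₀ * (Y * (2 * Real.sqrt 2 * N * K₀ / Y)) := by gcongr
    _ = 2 * Real.sqrt 2 * N * K₀ ^ 2 := by field_simp

/-- the box bound for all `K₀`. -/
lemma box_all (hB : TBox) (ε : ℝ) (hε : 0 < ε) : ∃ C : ℝ, 0 < C ∧
    ∀ (N : ℝ) (K₀ Y : ℕ) (c₁ c₂ c₃ : ℝ), 1 ≤ N → 1 ≤ Y →
    ‖BS N K₀ Y c₁ c₂ c₃‖ ≤ C * N ^ ε * (K₀ * N ^ (7 / 5 : ℝ)) := by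
  obtain ⟨C, hC, h⟩ := hB ε hε
  refine ⟨max C (2 * Real.sqrt 2), lt_max_of_lt_left hC, fun N K₀ Y c₁ c₂ c₃ hN hY => ?_⟩
  have hN0 : (0 : ℝ) < N := by linarith
  rcases le_or_gt (N ^ (2 / 5 : ℝ)) K₀ with hK | hK
  · refine (h N K₀ Y c₁ c₂ c₃ hN hY hK).trans ?_
    gcongr
    exact le_max_left _ _
  · have h1 : ‖BS N K₀ Y c₁ c₂ c₃‖ ≤ (box N K₀ Y).card := by
      rw [BS_eq_box]
      refine (norm_sum_le _ _).trans ?_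
      have : ∀ x : ℕ × ℕ × ℕ, ‖fe x‖ = 1 := fun x => norm_ee _
      simp only [this, Finset.sum_const, nsmul_eq_mul, mul_one]
      exact_mod_cast Finset.card_le_card ((Finset.filter_subset _ _).trans
        ((Finset.filter_subset _ _).trans (Finset.filter_subset _ _)))
    have h2 : N * (K₀ : ℝ) ^ 2 ≤ K₀ * N ^ (7 / 5 : ℝ) := by
      have e : N ^ (7 / 5 : ℝ) = N * N ^ (2 / 5 : ℝ) := by
        rw [← Real.rpow_one_add' hN0.le (by norm_num)]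
        norm_num
      rw [e]
      have : N * (K₀ : ℝ) ^ 2 = K₀ * (N * K₀) := by ring
      rw [this]
      gcongr
    have h3 : (1 : ℝ) ≤ N ^ ε := Real.one_le_rpow hN hε.le
    calc ‖BS N K₀ Y c₁ c₂ c₃‖ ≤ 2 * Real.sqrt 2 * N * K₀ ^ 2 := h1.trans (card_box hN hY)
      _ = 2 * Real.sqrt 2 * 1 * (N * K₀ ^ 2) := by ring
      _ ≤ max C (2 * Real.sqrt 2) * N ^ ε * (K₀ * N ^ (7 / 5 : ℝ)) := by
        gcongr
        exact le_max_right _ _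

/-- the weighted sum over a box. -/
lemma box_weighted (hA : TAbel) {N : ℝ} (hN : 1 ≤ N) {K₀ Y : ℕ} (hK : 1 ≤ K₀) (hY : 1 ≤ Y)
    {B : ℝ} (hB0 : 0 ≤ B) (hB : ∀ c₁ c₂ c₃ : ℝ, ‖BS N K₀ Y c₁ c₂ c₃‖ ≤ B) :
    ‖∑ x ∈ box N K₀ Y,
      ((Real.sqrt x.2.1 * Real.sqrt x.2.2 / (x.1 * Real.sqrt x.1) : ℝ) : ℂ) * fe x‖ ≤
      2 * Real.sqrt (2 * Y) * (2 * Real.sqrt (2 * Real.sqrt 2 * N * K₀ / Y) *
        (2 * (1 / (K₀ * Real.sqrt K₀)) * B)) := by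
  have hK0 : (0 : ℝ) < K₀ := by exact_mod_cast hK
  have hY0 : (0 : ℝ) < Y := by exact_mod_cast hY
  -- step 1
  have s1 : ∀ c₁ c₂ : ℝ, ‖∑ x ∈ ((box N K₀ Y).filter (fun x : ℕ × ℕ × ℕ => (x.2.1 : ℝ) ≤ c₁)).filter
      (fun x : ℕ × ℕ × ℕ => (x.2.2 : ℝ) ≤ c₂), ((1 / ((x.1 : ℝ) * Real.sqrt x.1) : ℝ) : ℂ) * fe x‖
      ≤ 2 * (1 / (K₀ * Real.sqrt K₀)) * B := by
    intro c₁ c₂
    refine hA (ℕ × ℕ × ℕ) _ (fun x => (x.1 : ℝ)) fe (fun v => 1 / (v * Real.sqrt v))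
      (1 / (K₀ * Real.sqrt K₀)) B (Or.inl ?_) ?_ (by positivity) hB0 ?_
    · intro i hi j hj hij
      have hij : (i.1 : ℝ) ≤ j.1 := hij
      show (1 : ℝ) / (j.1 * Real.sqrt j.1) ≤ 1 / (i.1 * Real.sqrt i.1)
      have hi0 : K₀ ≤ i.1 := (mem_box.1 (Finset.mem_filter.1 (Finset.mem_filter.1 hi).1).1).1.1.1
      have hi1 : (0 : ℝ) < i.1 := lt_of_lt_of_le hK0 (by exact_mod_cast hi0)
      have := Real.sqrt_pos.2 hi1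
      have := Real.sqrt_le_sqrt hij
      gcongr
    · intro i hi
      have hi0 : K₀ ≤ i.1 := (mem_box.1 (Finset.mem_filter.1 (Finset.mem_filter.1 hi).1).1).1.1.1
      have hi1 : (K₀ : ℝ) ≤ i.1 := by exact_mod_cast hi0
      have := Real.sqrt_pos.2 hK0
      have := Real.sqrt_le_sqrt hi1
      refine ⟨by positivity, by gcongr⟩
    · intro c
      have := hB c₁ c₂ c
      rw [BS_eq_box] at this
      exact this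
  have s2 : ∀ c₁ : ℝ, ‖∑ x ∈ (box N K₀ Y).filter (fun x : ℕ × ℕ × ℕ => (x.2.1 : ℝ) ≤ c₁),
      ((Real.sqrt x.2.2 : ℝ) : ℂ) * (((1 / ((x.1 : ℝ) * Real.sqrt x.1) : ℝ) : ℂ) * fe x)‖
      ≤ 2 * Real.sqrt (2 * Real.sqrt 2 * N * K₀ / Y) * (2 * (1 / (K₀ * Real.sqrt K₀)) * B) := by
    intro c₁
    refine hA (ℕ × ℕ × ℕ) _ (fun x => (x.2.2 : ℝ))
      (fun x => ((1 / ((x.1 : ℝ) * Real.sqrt x.1) : ℝ) : ℂ) * fe x) (fun v => Real.sqrt v)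
      (Real.sqrt (2 * Real.sqrt 2 * N * K₀ / Y)) (2 * (1 / (K₀ * Real.sqrt K₀)) * B)
      (Or.inr ?_) ?_ (by positivity) (by positivity) ?_
    · intro i hi j hj hij
      exact Real.sqrt_le_sqrt hij
    · intro i hi
      refine ⟨by positivity, Real.sqrt_le_sqrt (u_le hN hY (Finset.mem_filter.1 hi).1)⟩
    · intro c
      exact s1 c₁ c
  have s3 : ‖∑ x ∈ box N K₀ Y, ((Real.sqrt x.2.1 : ℝ) : ℂ) *
      (((Real.sqrt x.2.2 : ℝ) : ℂ) * (((1 / ((x.1 : ℝ) * Real.sqrt x.1) : ℝ) : ℂ) * fe x))‖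
      ≤ 2 * Real.sqrt (2 * Y) * (2 * Real.sqrt (2 * Real.sqrt 2 * N * K₀ / Y) *
        (2 * (1 / (K₀ * Real.sqrt K₀)) * B)) := by
    refine hA (ℕ × ℕ × ℕ) _ (fun x => (x.2.1 : ℝ))
      (fun x => ((Real.sqrt x.2.2 : ℝ) : ℂ) * (((1 / ((x.1 : ℝ) * Real.sqrt x.1) : ℝ) : ℂ) * fe x))
      (fun v => Real.sqrt v) (Real.sqrt (2 * Y)) _ (Or.inr ?_) ?_ (by positivity) (by positivity) ?_
    · intro i hi j hj hij
      exact Real.sqrt_le_sqrt hij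
    · intro i hi
      refine ⟨by positivity, Real.sqrt_le_sqrt ?_⟩
      have := (mem_box.1 hi).1.2.1.2.le
      exact_mod_cast this
    · intro c
      exact s2 c
  refine le_trans (le_of_eq ?_) s3
  congr 1
  refine Finset.sum_congr rfl fun x _ => ?_
  rw [← mul_assoc, ← mul_assoc]
  congr 1
  rw [← Complex.ofReal_mul, ← Complex.ofReal_mul]
  congr 1
  ring

lemma weight_calc {N : ℝ} (hN : 1 ≤ N) {K₀ Y : ℕ} (hK : 1 ≤ K₀) (hY : 1 ≤ Y) (C ε : ℝ) :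
    2 * Real.sqrt (2 * Y) * (2 * Real.sqrt (2 * Real.sqrt 2 * N * K₀ / Y) *
        (2 * (1 / (K₀ * Real.sqrt K₀)) * (C * N ^ ε * (K₀ * N ^ (7 / 5 : ℝ))))) =
      8 * Real.sqrt (4 * Real.sqrt 2) * C * N ^ (19 / 10 + ε) := by
  have hK0 : (0 : ℝ) < K₀ := by exact_mod_cast hK
  have hY0 : (0 : ℝ) < Y := by exact_mod_cast hY
  have hN0 : (0 : ℝ) < N := by linarith
  have hs := Real.sqrt_pos.2 hK0
  have e1 : Real.sqrt (2 * Y) * Real.sqrt (2 * Real.sqrt 2 * N * K₀ / Y) =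
      Real.sqrt (4 * Real.sqrt 2) * Real.sqrt N * Real.sqrt K₀ := by
    rw [← Real.sqrt_mul (by positivity), ← Real.sqrt_mul (by positivity),
      ← Real.sqrt_mul (by positivity)]
    congr 1
    field_simp
    ring
  have e2 : N ^ (19 / 10 + ε) = Real.sqrt N * N ^ (7 / 5 : ℝ) * N ^ ε := by
    rw [Real.sqrt_eq_rpow, ← Real.rpow_add hN0, ← Real.rpow_add hN0]
    norm_num
  calc 2 * Real.sqrt (2 * Y) * (2 * Real.sqrt (2 * Real.sqrt 2 * N * K₀ / Y) *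
        (2 * (1 / (K₀ * Real.sqrt K₀)) * (C * N ^ ε * (K₀ * N ^ (7 / 5 : ℝ)))))
      = 8 * (Real.sqrt (2 * Y) * Real.sqrt (2 * Real.sqrt 2 * N * K₀ / Y)) *
        (1 / (K₀ * Real.sqrt K₀)) * (C * N ^ ε * (K₀ * N ^ (7 / 5 : ℝ))) := by ring
    _ = 8 * (Real.sqrt (4 * Real.sqrt 2) * Real.sqrt N * Real.sqrt K₀) *
        (1 / (K₀ * Real.sqrt K₀)) * (C * N ^ ε * (K₀ * N ^ (7 / 5 : ℝ))) := by rw [e1]
    _ = 8 * Real.sqrt (4 * Real.sqrt 2) * C * (Real.sqrt N * N ^ (7 / 5 : ℝ) * N ^ ε) := by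
        field_simp
    _ = _ := by rw [e2]

lemma log2_le {ε : ℝ} (hε : 0 < ε) : ∃ C : ℝ, 0 < C ∧ ∀ N : ℝ, 1 ≤ N →
    (((Nat.log 2 ⌊Real.sqrt 2 * N⌋₊ + 1 : ℕ) : ℝ)) ≤ C * N ^ ε := by
  refine ⟨2 + 2 / ε, by positivity, fun N hN => ?_⟩
  have hN0 : (0 : ℝ) < N := by linarith
  have hs1 : (1 : ℝ) ≤ Real.sqrt 2 := by
    rw [Real.one_le_sqrt]; norm_num
  have hs2 : Real.sqrt 2 ≤ 2 := by
    rw [Real.sqrt_le_left (by norm_num)]; norm_num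
  set M := ⌊Real.sqrt 2 * N⌋₊ with hM
  have hM1 : 1 ≤ M := by
    apply Nat.le_floor
    push_cast
    nlinarith
  have h1 : (2 : ℝ) ^ (Nat.log 2 M) ≤ 2 * N := by
    have h2 : 2 ^ (Nat.log 2 M) ≤ M := Nat.pow_log_le_self 2 (by omega)
    have h3 : (M : ℝ) ≤ Real.sqrt 2 * N := Nat.floor_le (by positivity)
    have h4 : ((2 ^ (Nat.log 2 M) : ℕ) : ℝ) ≤ M := by exact_mod_cast h2
    push_cast at h4
    nlinarith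
  have h5 : (Nat.log 2 M : ℝ) * Real.log 2 ≤ Real.log 2 + Real.log N := by
    have h6 := Real.log_le_log (by positivity) h1
    rw [Real.log_pow, Real.log_mul (by norm_num) hN0.ne'] at h6
    exact h6
  have hl2 : 0.5 < Real.log 2 := by
    have := Real.log_two_gt_d9
    linarith
  have h7 : (Nat.log 2 M : ℝ) ≤ 1 + 2 * Real.log N := by
    have hlN : 0 ≤ Real.log N := Real.log_nonneg hN
    by_contra hcon
    rw [not_le] at hcon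
    nlinarith
  have h8 : Real.log N ≤ N ^ ε / ε := Real.log_le_rpow_div hN0.le hε
  have h9 : (1 : ℝ) ≤ N ^ ε := Real.one_le_rpow hN hε.le
  push_cast
  calc (Nat.log 2 M : ℝ) + 1 ≤ 2 + 2 * (N ^ ε / ε) := by linarith
    _ ≤ 2 * N ^ ε + 2 * (N ^ ε / ε) := by linarith
    _ = (2 + 2 / ε) * N ^ ε := by ring

/-- dyadic decomposition of `W`. -/
lemma W_eq {N : ℝ} (hN : 1 ≤ N) : W N =
    ∑ ij ∈ (range (Nat.log 2 ⌊Real.sqrt 2 * N⌋₊ + 1)) ×ˢ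
        (range (Nat.log 2 ⌊Real.sqrt 2 * N⌋₊ + 1)),
      ∑ x ∈ box N (2 ^ ij.1) (2 ^ ij.2),
        ((Real.sqrt x.2.1 * Real.sqrt x.2.2 / (x.1 * Real.sqrt x.1) : ℝ) : ℂ) * fe x := by
  classical
  set M := ⌊Real.sqrt 2 * N⌋₊ with hM
  unfold W
  rw [← hM]
  set S := ((Icc 1 M) ×ˢ ((Icc 1 M) ×ˢ (Icc 1 M))).filter (fun x : ℕ × ℕ × ℕ =>
        x.1 ≤ x.2.1 ∧ x.1 ≤ x.2.2 ∧ N * x.1 ≤ (x.2.1 : ℝ) * x.2.2 ∧
          (x.2.1 : ℝ) * x.2.2 ≤ Real.sqrt 2 * N * x.1) with hS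
  have hmS : ∀ x : ℕ × ℕ × ℕ, x ∈ S ↔ ((1 ≤ x.1 ∧ x.1 ≤ M) ∧ (1 ≤ x.2.1 ∧ x.2.1 ≤ M) ∧
      (1 ≤ x.2.2 ∧ x.2.2 ≤ M)) ∧ (x.1 ≤ x.2.1 ∧ x.1 ≤ x.2.2 ∧ N * x.1 ≤ (x.2.1 : ℝ) * x.2.2 ∧
          (x.2.1 : ℝ) * x.2.2 ≤ Real.sqrt 2 * N * x.1) := by
    intro x
    simp only [hS, Finset.mem_filter, Finset.mem_product, Finset.mem_Icc]
  rw [← Finset.sum_fiberwise_of_maps_to (s := S)
    (t := (range (Nat.log 2 M + 1)) ×ˢ (range (Nat.log 2 M + 1)))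
    (g := fun x : ℕ × ℕ × ℕ => (Nat.log 2 x.1, Nat.log 2 x.2.1))]
  · refine Finset.sum_congr rfl fun ij _ => ?_
    obtain ⟨i, j⟩ := ij
    refine Finset.sum_congr ?_ fun _ _ => rfl
    ext x
    rw [Finset.mem_filter, hmS, mem_box, Prod.mk.injEq, ← hM]
    constructor
    · rintro ⟨⟨⟨⟨h1, h2⟩, ⟨h3, h4⟩, h5⟩, h6⟩, h7, h8⟩
      have l1 := (Nat.log_eq_iff (Or.inr ⟨by norm_num, by omega⟩)).1 h7
      have l2 := (Nat.log_eq_iff (Or.inr ⟨by norm_num, by omega⟩)).1 h8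
      refine ⟨⟨⟨l1.1, ?_⟩, ⟨l2.1, ?_⟩, h5⟩, h6⟩
      · rw [← pow_succ']; exact l1.2
      · rw [← pow_succ']; exact l2.2
    · rintro ⟨⟨⟨h1, h2⟩, ⟨h3, h4⟩, h5⟩, h6⟩
      have p1 : 0 < 2 ^ i := by positivity
      have p2 : 0 < 2 ^ j := by positivity
      rw [← pow_succ'] at h2 h4
      have l1 : Nat.log 2 x.1 = i := (Nat.log_eq_iff (Or.inr ⟨by norm_num, by omega⟩)).2 ⟨h1, h2⟩
      have l2 : Nat.log 2 x.2.1 = j := (Nat.log_eq_iff (Or.inr ⟨by norm_num, by omega⟩)).2 ⟨h3, h4⟩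
      refine ⟨⟨⟨⟨by omega, h6.2.1.trans h5.2⟩, ⟨by omega, ?_⟩, h5⟩, h6⟩, l1, l2⟩
      apply Nat.le_floor
      have hx1 : (0 : ℝ) < x.1 := by
        have : 0 < x.1 := by omega
        exact_mod_cast this
      have a1 : (x.1 : ℝ) ≤ x.2.2 := by exact_mod_cast h6.2.1
      have a2 : (x.2.1 : ℝ) * x.1 ≤ Real.sqrt 2 * N * x.1 := by
        refine le_trans ?_ h6.2.2.2
        gcongr
      exact le_of_mul_le_mul_right a2 hx1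
  · intro x hx
    rw [hmS] at hx
    rw [Finset.mem_product, Finset.mem_range, Finset.mem_range]
    have g1 : Nat.log 2 x.1 ≤ Nat.log 2 M := Nat.log_mono_right hx.1.1.2
    have g2 : Nat.log 2 x.2.1 ≤ Nat.log 2 M := Nat.log_mono_right hx.1.2.1.2
    exact ⟨Nat.lt_succ_of_le g1, Nat.lt_succ_of_le g2⟩

theorem w (hB : TBox) (hA : TAbel) : TW := by
  intro ε hε
  obtain ⟨C₁, hC₁, h1⟩ := box_all hB (ε / 2) (by positivity)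
  obtain ⟨C₂, hC₂, h2⟩ := log2_le (ε := ε / 4) (by positivity)
  refine ⟨C₂ ^ 2 * (8 * Real.sqrt (4 * Real.sqrt 2) * C₁), by positivity, fun N hN => ?_⟩
  have hN0 : (0 : ℝ) < N := by linarith
  rw [W_eq hN]
  have hbox : ∀ ij : ℕ × ℕ, ‖∑ x ∈ box N (2 ^ ij.1) (2 ^ ij.2),
        ((Real.sqrt x.2.1 * Real.sqrt x.2.2 / (x.1 * Real.sqrt x.1) : ℝ) : ℂ) * fe x‖ ≤
      8 * Real.sqrt (4 * Real.sqrt 2) * C₁ * N ^ (19 / 10 + ε / 2) := by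
    intro ij
    have hK : 1 ≤ 2 ^ ij.1 := Nat.one_le_two_pow
    have hY : 1 ≤ 2 ^ ij.2 := Nat.one_le_two_pow
    rw [← weight_calc hN hK hY C₁ (ε / 2)]
    exact box_weighted hA hN hK hY (by positivity)
      (fun c₁ c₂ c₃ => h1 N _ _ c₁ c₂ c₃ hN hY)
  refine (norm_sum_le _ _).trans ((Finset.sum_le_sum fun ij _ => hbox ij).trans ?_)
  rw [Finset.sum_const, Finset.card_product, Finset.card_range, nsmul_eq_mul]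
  have h3 := h2 N hN
  have h4 : (((Nat.log 2 ⌊Real.sqrt 2 * N⌋₊ + 1) * (Nat.log 2 ⌊Real.sqrt 2 * N⌋₊ + 1) : ℕ) : ℝ) ≤
      (C₂ * N ^ (ε / 4)) ^ 2 := by
    rw [Nat.cast_mul, sq]
    gcongr
  have h5 : N ^ (19 / 10 + ε) = (N ^ (ε / 4)) ^ 2 * N ^ (19 / 10 + ε / 2) := by
    rw [← Real.rpow_natCast, ← Real.rpow_mul hN0.le, ← Real.rpow_add hN0]
    congr 1
    push_cast
    ring
  calc _ ≤ (C₂ * N ^ (ε / 4)) ^ 2 *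
        (8 * Real.sqrt (4 * Real.sqrt 2) * C₁ * N ^ (19 / 10 + ε / 2)) := by gcongr
    _ = C₂ ^ 2 * (8 * Real.sqrt (4 * Real.sqrt 2) * C₁) * N ^ (19 / 10 + ε) := by
        rw [h5]; ring

end Pool.Agent.H33.Cubic
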